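import Mathlib

namespace Pool.Agent.V5helper7.Qperm

open Equiv Finset

/-- Laplace expansion of the permanent along the first column. -/
theorem permanent_succ_column_zero {R : Type*} [CommSemiring R] {n : ℕ}
    (A : Matrix (Fin (n + 1)) (Fin (n + 1)) R) :
    A.permanent = ∑ p : Fin (n + 1), A p 0 * (A.submatrix p.succAbove Fin.succ).permanent := by
  unfold Matrix.permanent
  rw [← (Equiv.Perm.decomposeFin (n := n)).symm.sum_comp, Fintype.sum_prod_type]
  refine Finset.sum_congr rfl fun p _ => ?_
  rw [Finset.mul_sum]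
  have key : ∀ e : Perm (Fin n), (∏ i, A ((Equiv.Perm.decomposeFin.symm (p, e)) i) i) =
      A p 0 * ∏ i : Fin n, A (swap 0 p (e i).succ) i.succ := by
    intro e
    rw [Fin.prod_univ_succ, Equiv.Perm.decomposeFin_symm_apply_zero]
    simp only [Equiv.Perm.decomposeFin_symm_apply_succ]
  simp only [key]
  refine Fin.cases ?_ (fun i => ?_) p
  · simp
  · symm
    rw [← (Group.mulLeft_bijective (Fin.cycleRange i)).sum_comp]
    refine Finset.sum_congr rfl fun e _ => ?_
    congr 1
    refine Finset.prod_congr rfl fun j _ => ?_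
    rw [Matrix.submatrix_apply, Equiv.Perm.mul_apply, Fin.succAbove_cycleRange]

/-- Recursive Laplace expansion: `lap M k c l`, where `l` is the list of the `k` rows still
available and `c` the first free column. -/
def lap (M : ℕ → ℕ → ℕ) : ℕ → ℕ → List ℕ → ℕ
  | 0, _, _ => 1
  | k + 1, c, l => ((List.range (k + 1)).map fun p => M (l.getD p 0) c *
      lap M k (c + 1) (l.eraseIdx p)).sum

theorem lap_eq (M : ℕ → ℕ → ℕ) : ∀ (k c : ℕ) (l : List ℕ), l.length = k →
    lap M k c l = Matrix.permanent (Matrix.of fun (i j : Fin k) => M (l.getD i 0) (c + j)) := by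
  intro k
  induction k with
  | zero =>
    intro c l hl
    simp [lap, Matrix.permanent]
  | succ k ih =>
    intro c l hl
    rw [permanent_succ_column_zero, lap, ← List.sum_ofFn]
    rw [List.ofFn_eq_map, ← List.map_coe_finRange_eq_range, List.map_map]
    congr 1
    apply List.map_congr_left
    intro p _
    simp only [Function.comp, Matrix.of_apply, Fin.coe_ofNat_eq_mod, Nat.zero_mod, add_zero]
    congr 1
    rw [ih (c + 1) (l.eraseIdx p) (by rw [List.length_eraseIdx_of_lt (by omega)]; omega)]
    congr 1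
    ext i j
    simp only [Matrix.of_apply, Matrix.submatrix_apply, Fin.val_succ]
    have h1 : c + 1 + (j : ℕ) = c + (j + 1) := by omega
    rw [h1]
    congr 1
    have hi := i.isLt
    have hlt : (i : ℕ) < (l.eraseIdx p).length := by
      rw [List.length_eraseIdx_of_lt (by omega)]; omega
    rw [List.getD_eq_getElem _ _ hlt, List.getElem_eraseIdx]
    by_cases h : (i : ℕ) < (p : ℕ)
    · rw [Fin.succAbove_of_castSucc_lt _ _ (by simpa [Fin.lt_def] using h)]
      rw [dif_pos h, List.getD_eq_getElem _ _ (by simp; omega)]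
      simp
    · rw [Fin.succAbove_of_le_castSucc _ _ (by simpa [Fin.le_def] using h)]
      rw [dif_neg h, List.getD_eq_getElem _ _ (by simp; omega)]
      simp

theorem digits_unique (B : ℕ) : ∀ (N : ℕ) (a b : ℕ → ℕ), (∀ k, a k < B) →
    (∀ k, b k < B) → (∑ k ∈ range N, a k * B ^ k = ∑ k ∈ range N, b k * B ^ k) →
    ∀ k < N, a k = b k := by
  intro N
  induction N with
  | zero => intro a b _ _ _ k hk; omega
  | succ N ih =>
    intro a b ha hb h
    rw [Finset.sum_range_succ', Finset.sum_range_succ'] at h
    have e : ∀ f : ℕ → ℕ, ∑ k ∈ range N, f (k + 1) * B ^ (k + 1) =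
        B * ∑ k ∈ range N, f (k + 1) * B ^ k := by
      intro f
      rw [Finset.mul_sum]
      exact Finset.sum_congr rfl fun k _ => by ring
    rw [e a, e b, pow_zero, mul_one, mul_one] at h
    have hB : 0 < B := lt_of_le_of_lt (Nat.zero_le _) (ha 0)
    have h0 : a 0 = b 0 := by
      have := congrArg (· % B) h
      simpa [Nat.add_mod, Nat.mod_eq_of_lt (ha 0), Nat.mod_eq_of_lt (hb 0)] using this
    have h1 : ∑ k ∈ range N, a (k + 1) * B ^ k = ∑ k ∈ range N, b (k + 1) * B ^ k := by
      rw [h0] at h
      exact Nat.eq_of_mul_eq_mul_left hB (Nat.add_right_cancel h)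
    intro k hk
    rcases k with _ | k
    · exact h0
    · exact ih (fun k => a (k + 1)) (fun k => b (k + 1)) (fun k => ha _) (fun k => hb _) h1 k
        (by omega)

theorem sum_by_value {ι : Type*} [Fintype ι] {S : Type*} [CommSemiring S] (N : ℕ) (u : ι → ℕ)
    (hu : ∀ i ∈ (univ : Finset ι), u i ∈ range N) (H : ℕ → S) :
    ∑ i, H (u i) = ∑ k ∈ range N, ((univ.filter fun i => u i = k).card : S) * H k := by
  classical
  rw [← Finset.sum_fiberwise_of_maps_to hu]
  refine Finset.sum_congr rfl fun k _ => ?_
  rw [Finset.sum_congr rfl (g := fun _ => H k)]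
  · rw [Finset.sum_const, nsmul_eq_mul]
  · intro i hi
    rw [(Finset.mem_filter.mp hi).2]

/-- If the sums of `B ^ f i` and `B ^ g i` over a set with fewer than `B` elements agree, then
`f` and `g` have the same distribution. -/
theorem sum_comp_eq {ι : Type*} [Fintype ι] (B : ℕ) (hB : Fintype.card ι < B) (f g : ι → ℕ)
    (h : ∑ i, B ^ f i = ∑ i, B ^ g i) {R : Type*} [CommSemiring R] (F : ℕ → R) :
    ∑ i, F (f i) = ∑ i, F (g i) := by
  classical
  set N := (∑ i, f i) + (∑ i, g i) + 1 with hN
  have hf : ∀ i ∈ (univ : Finset ι), f i ∈ range N := by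
    intro i _
    rw [mem_range]
    have := Finset.single_le_sum (f := f) (fun _ _ => Nat.zero_le _) (mem_univ i)
    omega
  have hg : ∀ i ∈ (univ : Finset ι), g i ∈ range N := by
    intro i _
    rw [mem_range]
    have := Finset.single_le_sum (f := g) (fun _ _ => Nat.zero_le _) (mem_univ i)
    omega
  have key2 : ∀ (u : ι → ℕ) (hu : ∀ i ∈ (univ : Finset ι), u i ∈ range N),
      ∑ i, B ^ (u i) = ∑ k ∈ range N, (univ.filter fun i => u i = k).card * B ^ k := by
    intro u hu
    simpa using sum_by_value N u hu (fun k => B ^ k)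
  have hcard : ∀ (u : ι → ℕ) (k : ℕ), (univ.filter fun i => u i = k).card < B := by
    intro u k
    exact lt_of_le_of_lt (Finset.card_le_univ _) hB
  rw [key2 f hf, key2 g hg] at h
  have hd := digits_unique B N _ _ (hcard f) (hcard g) h
  rw [sum_by_value N f hf F, sum_by_value N g hg F]
  refine Finset.sum_congr rfl fun k hk => ?_
  rw [hd k (mem_range.mp hk)]

/-- Weights of the three kinds of entries (`0`: diagonal, `1`: edge, `2`: non-edge). -/
def wt (m : ℕ) : Fin 3 → ℕ := ![m + 1, 1, 0]

theorem sum_wt {n : ℕ} (m : ℕ) (u : Fin n → Fin 3) :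
    ∑ j, wt m (u j) = (m + 1) * (univ.filter fun j => u j = 0).card +
      (univ.filter fun j => u j = 1).card := by
  have h := Finset.sum_fiberwise (s := (univ : Finset (Fin n))) (g := u) (f := fun j => wt m (u j))
  rw [← h, Fin.sum_univ_three]
  have e : ∀ t : Fin 3, ∑ j ∈ univ.filter (fun j => u j = t), wt m (u j) =
      (univ.filter fun j => u j = t).card * wt m t := by
    intro t
    rw [Finset.sum_congr rfl (g := fun _ => wt m t)]
    · rw [Finset.sum_const, smul_eq_mul]
    · intro i hi
      rw [(Finset.mem_filter.mp hi).2]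
  rw [e, e, e]
  simp [wt]
  ring

theorem card_kinds {n : ℕ} (u : Fin n → Fin 3) :
    (univ.filter fun j => u j = 0).card + (univ.filter fun j => u j = 1).card +
      (univ.filter fun j => u j = 2).card = n := by
  have h := Finset.card_eq_sum_card_fiberwise (s := (univ : Finset (Fin n)))
    (t := (univ : Finset (Fin 3))) (f := u) (fun _ _ => mem_univ _)
  rw [Finset.card_univ, Fintype.card_fin, Fin.sum_univ_three] at h
  exact h.symm

theorem prod_val {R : Type*} [CommSemiring R] {n : ℕ} (a b c : R) (u : Fin n → Fin 3) :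
    ∏ j, (![a, b, c] : Fin 3 → R) (u j) =
      a ^ (univ.filter fun j => u j = 0).card * b ^ (univ.filter fun j => u j = 1).card *
      c ^ (univ.filter fun j => u j = 2).card := by
  have h := Finset.prod_fiberwise (s := (univ : Finset (Fin n))) (g := u)
    (f := fun j => (![a, b, c] : Fin 3 → R) (u j))
  rw [← h, Fin.prod_univ_three]
  have e : ∀ t : Fin 3, ∏ j ∈ univ.filter (fun j => u j = t), (![a, b, c] : Fin 3 → R) (u j) =
      (![a, b, c] : Fin 3 → R) t ^ (univ.filter fun j => u j = t).card := by
    intro t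
    rw [Finset.prod_congr rfl (g := fun _ => (![a, b, c] : Fin 3 → R) t)]
    · rw [Finset.prod_const]
    · intro i hi
      rw [(Finset.mem_filter.mp hi).2]
  rw [e, e, e]
  simp

/-- The value of the product with `9 f + e` encoding the numbers of kinds. -/
def enc {R : Type*} [CommSemiring R] (n : ℕ) (a b c : R) (k : ℕ) : R :=
  a ^ (k / (n + 1)) * b ^ (k % (n + 1)) * c ^ (n - k / (n + 1) - k % (n + 1))

theorem prod_val_enc {R : Type*} [CommSemiring R] {n : ℕ} (a b c : R) (u : Fin n → Fin 3) :
    ∏ j, (![a, b, c] : Fin 3 → R) (u j) = enc n a b c (∑ j, wt n (u j)) := by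
  rw [prod_val, sum_wt, enc]
  have h := card_kinds u
  set f := (univ.filter fun j => u j = 0).card
  set e := (univ.filter fun j => u j = 1).card
  set d := (univ.filter fun j => u j = 2).card
  have h1 : ((n + 1) * f + e) / (n + 1) = f := by
    rw [Nat.mul_add_div (by omega), Nat.div_eq_of_lt (by omega), add_zero]
  have h2 : ((n + 1) * f + e) % (n + 1) = e := by
    rw [Nat.mul_add_mod, Nat.mod_eq_of_lt (by omega)]
  rw [h1, h2]
  have h3 : n - f - e = d := by omega
  rw [h3]

/-- Two `kind` matrices whose weighted natural number permanents agree (with a large base) have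
equal permanents for all values of the three kinds in all commutative semirings. -/
theorem permanent_kind_eq {n : ℕ} (B : ℕ) (hB : n.factorial < B) (κ₁ κ₂ : Fin n → Fin n → Fin 3)
    (h : Matrix.permanent (Matrix.of fun i j : Fin n => B ^ wt n (κ₁ i j)) =
      Matrix.permanent (Matrix.of fun i j : Fin n => B ^ wt n (κ₂ i j)))
    {R : Type*} [CommSemiring R] (a b c : R) :
    Matrix.permanent (Matrix.of fun i j : Fin n => (![a, b, c] : Fin 3 → R) (κ₁ i j)) =
      Matrix.permanent (Matrix.of fun i j : Fin n => (![a, b, c] : Fin 3 → R) (κ₂ i j)) := by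
  simp only [Matrix.permanent, Matrix.of_apply] at h ⊢
  simp only [Finset.prod_pow_eq_pow_sum] at h
  have hc : Fintype.card (Perm (Fin n)) < B := by
    rw [Fintype.card_perm, Fintype.card_fin]; exact hB
  have := sum_comp_eq B hc (fun σ : Perm (Fin n) => ∑ j, wt n (κ₁ (σ j) j))
    (fun σ : Perm (Fin n) => ∑ j, wt n (κ₂ (σ j) j)) h (enc n a b c)
  simp only [← prod_val_enc a b c] at this
  exact this

end Pool.Agent.V5helper7.Qperm
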